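import Mathlib

/-!
# Quadrinomials `x ^ n + x ^ m + x ^ k + a` with an exceptional multiple root

The quadrinomials `x ^ 45 + x ^ 43 + x ^ 42 - 2 ^ 42 / 3 ^ 45` (double root `- 2 / 3`) and
`x ^ 364 + x ^ 363 + x ^ 361 + a` (double root `- 19 / 13`) refute the conjecture that only the
obvious family of quadrinomials has multiple roots. Substituting `x ^ d` for `x` gives infinitely
many counterexamples.
-/

namespace Pool.Agent.Results.MP_21e947_nt.RationalDoubleRoots

open Polynomial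

/-- The quadrinomial `x ^ n + x ^ m + x ^ k + a` over the rationals. -/
noncomputable def quad (n m k : ℕ) (a : ℚ) : ℚ[X] := X ^ n + X ^ m + X ^ k + C a

/-- `p` has a complex root of multiplicity at least `2`. -/
def HasMultipleRoot (p : ℚ[X]) : Prop :=
  ∃ θ : ℂ, 2 ≤ (p.map (algebraMap ℚ ℂ)).rootMultiplicity θ

/-- The triples `(d (t + u), d t, d u)` with `d ≥ 1` and `t > u ≥ 1` odd. -/
def Obvious (n m k : ℕ) : Prop :=
  ∃ d t u : ℕ, 1 ≤ d ∧ 1 ≤ u ∧ u < t ∧ Odd t ∧ Odd u ∧ n = d * (t + u) ∧ m = d * t ∧ k = d * u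

/-- The assertion of the question. -/
def Assertion : Prop :=
  ∀ (a : ℚ) (n m k : ℕ), a ≠ 0 → 1 ≤ k → k < m → m < n → HasMultipleRoot (quad n m k a) →
    a = 1 ∧ Obvious n m k

lemma quad_ne_zero {n m k : ℕ} {a : ℚ} (hk : 1 ≤ k) (hkm : k < m) (hmn : m < n) :
    (quad n m k a).map (algebraMap ℚ ℂ) ≠ 0 := by
  rw [Ne, Polynomial.map_eq_zero]
  intro h
  have := congrArg (fun p => p.coeff n) h
  simp [quad, coeff_X_pow, coeff_C] at this
  rw [if_neg (by omega), if_neg (by omega), if_neg (by omega)] at this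
  norm_num at this

/-- A nonzero complex `θ` with `n θ ^ n + m θ ^ m + k θ ^ k = 0` and
`θ ^ n + θ ^ m + θ ^ k + a = 0` is a multiple root. -/
lemma multiple {n m k : ℕ} {a : ℚ} (hk : 1 ≤ k) (hkm : k < m) (hmn : m < n) {θ : ℂ} (hθ : θ ≠ 0)
    (h1 : θ ^ n + θ ^ m + θ ^ k + a = 0) (h2 : n * θ ^ n + m * θ ^ m + k * θ ^ k = 0) :
    HasMultipleRoot (quad n m k a) := by
  refine ⟨θ, ?_⟩
  have h := (one_lt_rootMultiplicity_iff_isRoot (quad_ne_zero (a := a) hk hkm hmn) (t := θ)).2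
  refine h ⟨?_, ?_⟩
  · simp [quad, IsRoot.def, h1]
  · simp only [quad, IsRoot.def, Polynomial.map_add, Polynomial.map_pow, map_X, map_C,
      derivative_add, derivative_X_pow, derivative_C, add_zero, eval_add, eval_mul, eval_pow,
      eval_X, eval_C]
    have e : ∀ j : ℕ, 1 ≤ j → θ * ((j : ℂ) * θ ^ (j - 1)) = j * θ ^ j := by
      intro j hj
      obtain ⟨i, rfl⟩ : ∃ i, j = i + 1 := ⟨j - 1, by omega⟩
      simp only [Nat.add_sub_cancel]
      ring
    have h3 : θ * ((n : ℂ) * θ ^ (n - 1) + (m : ℂ) * θ ^ (m - 1) + (k : ℂ) * θ ^ (k - 1)) = 0 := by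
      rw [mul_add, mul_add, e n (by omega), e m (by omega), e k hk, h2]
    exact (mul_eq_zero.1 h3).resolve_left hθ

/-- A rational solution of the two equations gives multiple roots for all multiples of the
exponents. -/
lemma multiple_rat {n m k : ℕ} {a : ℚ} (hk : 1 ≤ k) (hkm : k < m) (hmn : m < n) {r : ℚ}
    (hr : r ≠ 0) (h1 : r ^ n + r ^ m + r ^ k + a = 0) (h2 : n * r ^ n + m * r ^ m + k * r ^ k = 0)
    {d : ℕ} (hd : 1 ≤ d) : HasMultipleRoot (quad (d * n) (d * m) (d * k) a) := by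
  obtain ⟨θ, hθ⟩ : ∃ θ : ℂ, θ ^ d = (r : ℂ) := IsAlgClosed.exists_pow_nat_eq _ (by omega)
  have hθ0 : θ ≠ 0 := by
    rintro rfl
    rw [zero_pow (by omega)] at hθ
    exact hr (by exact_mod_cast hθ.symm)
  have hd0 : 0 < d := hd
  refine multiple (θ := θ) (Nat.mul_pos hd0 hk) (Nat.mul_lt_mul_of_pos_left hkm hd0)
    (Nat.mul_lt_mul_of_pos_left hmn hd0) hθ0 ?_ ?_
  · rw [pow_mul, pow_mul, pow_mul, hθ]
    exact_mod_cast h1
  · rw [pow_mul, pow_mul, pow_mul, hθ]
    have h3 : (n : ℂ) * (r : ℂ) ^ n + m * (r : ℂ) ^ m + k * (r : ℂ) ^ k = 0 := by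
      exact_mod_cast h2
    push_cast
    calc (d : ℂ) * n * (r : ℂ) ^ n + d * m * (r : ℂ) ^ m + d * k * (r : ℂ) ^ k
        = d * (n * (r : ℂ) ^ n + m * (r : ℂ) ^ m + k * (r : ℂ) ^ k) := by ring
      _ = 0 := by rw [h3, mul_zero]

/-- The exponents of an obvious quadrinomial satisfy `n = m + k`. -/
lemma Obvious.add {n m k : ℕ} (h : Obvious n m k) : n = m + k := by
  obtain ⟨d, t, u, -, -, -, -, -, rfl, rfl, rfl⟩ := h
  ring

lemma aux {e : ℕ} (he : e ≠ 0) : ¬ ((19 : ℚ) ^ e / 13 ^ e * (31 / 2197) = 1) := by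
  intro h
  have h13 : (13 : ℚ) ^ e ≠ 0 := pow_ne_zero _ (by norm_num)
  rw [div_mul_div_comm, div_eq_one_iff_eq (mul_ne_zero h13 (by norm_num))] at h
  have h3 : (19 : ℕ) ^ e * 31 = 13 ^ e * 2197 := by exact_mod_cast h
  have h4 : 19 ∣ 13 ^ e * 2197 := h3 ▸ Dvd.dvd.mul_right (dvd_pow_self _ he) _
  have h5 : Nat.Prime 19 := by norm_num
  rcases h5.dvd_mul.1 h4 with h6 | h6
  · have := h5.dvd_of_dvd_pow h6
    norm_num at this
  · norm_num at h6

/-- **The conjecture fails**: for every `d ≥ 1` the quadrinomials with exponents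
`(45 d, 43 d, 42 d)` and constant term `- 2 ^ 42 / 3 ^ 45`, and those with exponents `(364 d, 363 d, 361 d)` and a suitable
rational constant term different from `0` and `1`, have multiple roots. -/
theorem result :
    ¬ Assertion ∧
    (∀ d : ℕ, 1 ≤ d →
      HasMultipleRoot (quad (45 * d) (43 * d) (42 * d) (-(2 ^ 42 / 3 ^ 45))) ∧
      ¬ Obvious (45 * d) (43 * d) (42 * d)) ∧
    (∀ d : ℕ, 1 ≤ d → ∃ a : ℚ, a ≠ 0 ∧ a ≠ 1 ∧
      HasMultipleRoot (quad (364 * d) (363 * d) (361 * d) a) ∧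
      ¬ Obvious (364 * d) (363 * d) (361 * d)) := by
  have A : ∀ d : ℕ, 1 ≤ d →
      HasMultipleRoot (quad (45 * d) (43 * d) (42 * d) (-(2 ^ 42 / 3 ^ 45))) ∧
      ¬ Obvious (45 * d) (43 * d) (42 * d) := by
    intro d hd
    refine ⟨?_, fun h => ?_⟩
    · have := multiple_rat (n := 45) (m := 43) (k := 42) (a := -(2 ^ 42 / 3 ^ 45)) (r := -2 / 3)
        (by norm_num) (by norm_num) (by norm_num) (by norm_num) (by norm_num) (by norm_num) hd
      simpa only [mul_comm d] using this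
    · have := h.add
      omega
  refine ⟨fun h => ?_, A, ?_⟩
  · have h1 := h (-(2 ^ 42 / 3 ^ 45)) 45 43 42 (by norm_num) (by norm_num) (by norm_num)
      (by norm_num) (by simpa using (A 1 le_rfl).1)
    have := h1.1
    norm_num at this
  · intro d hd
    obtain ⟨r, hr⟩ : ∃ r : ℚ, r = -(19 / 13) := ⟨_, rfl⟩
    have hr0 : r ≠ 0 := by rw [hr]; norm_num
    have e4 : r ^ 364 = r ^ 361 * r ^ 3 := by rw [← pow_add]
    have e3 : r ^ 363 = r ^ 361 * r ^ 2 := by rw [← pow_add]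
    have es : r ^ 364 + r ^ 363 + r ^ 361 = r ^ 361 * (31 / 2197) := by
      rw [e4, e3, hr]
      ring
    refine ⟨-(r ^ 364 + r ^ 363 + r ^ 361), ?_, ?_, ?_, fun h => ?_⟩
    · rw [es, neg_ne_zero]
      exact mul_ne_zero (pow_ne_zero _ hr0) (by norm_num)
    · rw [es, hr, Odd.neg_pow (by decide), neg_mul, neg_neg, div_pow]
      exact aux (by norm_num)
    · have := multiple_rat (n := 364) (m := 363) (k := 361)
        (a := -(r ^ 364 + r ^ 363 + r ^ 361)) (r := r)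
        (by norm_num) (by norm_num) (by norm_num) hr0 (add_neg_cancel _) ?_ hd
      · simpa only [mul_comm d] using this
      · rw [e4, e3, hr]
        push_cast
        ring
    · have := h.add
      omega

end Pool.Agent.Results.MP_21e947_nt.RationalDoubleRoots
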